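import Pool.Agent.W759.TR.Defs

namespace Pool.Agent.W624.TR

open MeasureTheory ProbabilityTheory Set Filter
open Pool.Agent.W759.FD (IsSign chsh blk hs house coins coin sg rs)
open Pool.Agent.W759.TR

variable {V : Type}

lemma isU_comp {G : SimpleGraph V} (φ : G ≃g G) (U : V → Lab) (v u : V) (c : Lab) :
    IsU G (fun x => U (φ x)) v c u ↔ IsU G U (φ v) c (φ u) := by
  unfold IsU
  constructor
  · rintro ⟨h1, h2, h3⟩
    refine ⟨φ.map_adj_iff.2 h1, h2, fun u' h4 h5 => ?_⟩
    have h6 : G.Adj v (φ.symm u') := by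
      rw [← φ.map_adj_iff]
      simpa using h4
    have h7 := h3 (φ.symm u') h6 (by simpa using h5)
    rw [← h7]
    simp
  · rintro ⟨h1, h2, h3⟩
    refine ⟨φ.map_adj_iff.1 h1, h2, fun u' h4 h5 => ?_⟩
    exact φ.injective (h3 (φ u') (φ.map_adj_iff.2 h4) h5)

lemma link_comp {G : SimpleGraph V} (φ : G ≃g G) (U : V → Lab) (w : List Lab) (j : ℕ) (u v : V) :
    Link G (fun x => U (φ x)) w j u v ↔ Link G U w j (φ u) (φ v) := by
  unfold Link
  rw [isU_comp, isU_comp]

lemma link_unique {G : SimpleGraph V} {U : V → Lab} {w : List Lab} {j : ℕ} {u u' v : V}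
    (h : Link G U w j u v) (h' : Link G U w j u' v) : u = u' :=
  (h'.2.2.2 u h.2.1 h.2.2.1)

lemma first_comp {G : SimpleGraph V} (φ : G ≃g G) (U : V → Lab) (w : List Lab) :
    ∀ (j : ℕ) (v : V), first G univ U w j (φ v) =
      (φ (first G univ (fun x => U (φ x)) w j v).1,
        (first G univ (fun x => U (φ x)) w j v).2) := by
  intro j
  induction j with
  | zero => intro v; simp [first]
  | succ j ih =>
    intro v
    by_cases h : ∃ u, u ∈ (univ : Set V) ∧ v ∈ (univ : Set V) ∧
        Link G (fun x => U (φ x)) w j u v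
    · have h' : ∃ u, u ∈ (univ : Set V) ∧ φ v ∈ (univ : Set V) ∧ Link G U w j u (φ v) := by
        obtain ⟨u, -, -, hu⟩ := h
        exact ⟨φ u, mem_univ _, mem_univ _, (link_comp φ U w j u v).1 hu⟩
      have e : h'.choose = φ h.choose :=
        link_unique h'.choose_spec.2.2 ((link_comp φ U w j _ v).1 h.choose_spec.2.2)
      rw [first, dif_pos h', e, ih, first, dif_pos h]
    · have h' : ¬ ∃ u, u ∈ (univ : Set V) ∧ φ v ∈ (univ : Set V) ∧ Link G U w j u (φ v) := by
        rintro ⟨u, -, -, hu⟩
        apply h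
        refine ⟨φ.symm u, mem_univ _, mem_univ _, ?_⟩
        rw [link_comp]
        simpa using hu
      rw [first, dif_neg h', first, dif_neg h]

theorem t3 : T3 := by
  intro hH hT2 V _ G φ
  have hp : ∀ n : ℕ, IsProbabilityMeasure (house (n + 1)) := fun n => hH.1 (n + 1) (Nat.succ_pos n)
  have hX : Measurable (XC G univ) := hT2 V G univ
  let σ : Key × (V × ℕ) → Key × (V × ℕ) := fun q => (q.1, (φ q.2.1, q.2.2))
  have hσ : Function.Injective σ := by
    rintro ⟨a, b, c⟩ ⟨a', b', c'⟩ h
    simp only [σ, Prod.mk.injEq, EmbeddingLike.apply_eq_iff_eq] at h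
    obtain ⟨rfl, rfl, rfl⟩ := h
    rfl
  let f : (V → Lab) → (V → Lab) := fun U v => U (φ v)
  let g : (Key × (V × ℕ) → ℕ → Bool) → (Key × (V × ℕ) → ℕ → Bool) := fun H q => H (σ q)
  have hf : Measurable f := by fun_prop
  have hg : Measurable g := by
    refine measurable_pi_lambda _ fun q => ?_
    exact measurable_pi_apply (σ q)
  have hPU : (PU V).map f = PU V :=
    Measure.map_infinitePi_infinitePi_of_inj (P := fun _ : V => lab) φ.injective
  have hPH : (PH V).map g = PH V :=
    Measure.map_infinitePi_infinitePi_of_inj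
      (P := fun k : Key × (V × ℕ) => house (k.1.1.1 + 1)) hσ
  haveI : IsProbabilityMeasure (PU V) := by unfold PU; infer_instance
  haveI : IsProbabilityMeasure (PH V) := by unfold PH; infer_instance
  have hPE : (PE V).map (Prod.map f g) = PE V := by
    unfold PE
    rw [← Measure.map_prod_map _ _ hf hg, hPU, hPH]
  have hcomm : (fun x : V → S1 => fun v => x (φ v)) ∘ XC G univ =
      XC G univ ∘ (Prod.map f g) := by
    funext ω
    funext v
    refine Prod.ext rfl ?_
    funext q
    show ω.2 (q.1, first G univ ω.1 q.1.2 q.2 (φ v)) q.2 = _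
    rw [first_comp]
    rfl
  have hsh : Measurable (fun x : V → S1 => fun v => x (φ v)) :=
    measurable_pi_lambda _ fun v => measurable_pi_apply (φ v)
  unfold muT
  rw [Measure.map_map hsh hX, hcomm, ← Measure.map_map hX (hf.prodMap hg), hPE]

end Pool.Agent.W624.TR
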